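import Pool.Agent.H93.EB.Defs

/-!
# The energy argument (MP_c59857_nt): basic facts on `cr`, `M`, `lg`
-/

set_option autoImplicit false

namespace Pool.Agent.H93.EB

open Finset Pool.Agent.H6.N4D

lemma continuous_ee : Continuous ee := by
  unfold ee
  fun_prop

lemma ee_zero : ee 0 = 1 := by simp [ee]

lemma ee_neg_mul_self (x : ℝ) : ee (-x) * ee x = 1 := by
  rw [← ee_add]; simp [ee_zero]

lemma ee_sub_int (x : ℝ) (k : ℤ) : ee (x - k) = ee x := by
  have h : ee (x - k) * ee k = ee x := by rw [← ee_add]; congr 1; ring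
  rw [ee_int, mul_one] at h
  exact h

lemma ee_re (x : ℝ) : (ee x).re = Real.cos (2 * Real.pi * x) := by
  unfold ee
  rw [Complex.exp_ofReal_mul_I_re]

lemma ee_im (x : ℝ) : (ee x).im = Real.sin (2 * Real.pi * x) := by
  unfold ee
  rw [Complex.exp_ofReal_mul_I_im]

lemma norm_sum_le_of (s : Finset ℕ) (f : ℕ → ℂ) {c : ℝ} (h : ∀ m ∈ s, ‖f m‖ ≤ c) :
    ‖∑ m ∈ s, f m‖ ≤ c * s.card := by
  calc ‖∑ m ∈ s, f m‖ ≤ ∑ m ∈ s, ‖f m‖ := norm_sum_le _ _
    _ ≤ ∑ _m ∈ s, c := sum_le_sum h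
    _ = c * s.card := by rw [sum_const, nsmul_eq_mul]; ring

lemma norm_term (lam : ℕ → ℝ) (hl : ∀ n, |lam n| ≤ 1) (θ : ℝ) (m : ℕ) :
    ‖(lam m : ℂ) * ee (-(θ * m))‖ ≤ 1 := by
  rw [norm_mul, norm_ee, mul_one, Complex.norm_real, Real.norm_eq_abs]
  exact hl m

lemma norm_cr_le_one (lam : ℕ → ℝ) (hl : ∀ n, |lam n| ≤ 1) (N n : ℕ) (θ : ℝ) :
    ‖cr lam N n θ‖ ≤ 1 := by
  unfold cr
  rcases Nat.eq_zero_or_pos N with h | h
  · subst h; simp
  · have hN : (0 : ℝ) < N := by exact_mod_cast h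
    rw [norm_div, Complex.norm_natCast, div_le_one hN]
    have := norm_sum_le_of (Ioc n (n + N)) (fun m => (lam m : ℂ) * ee (-(θ * m))) (c := 1)
      (fun m _ => norm_term lam hl θ m)
    simpa using this

/-- the correlation is bounded for every function -/
lemma norm_cr_le (lam : ℕ → ℝ) (N n : ℕ) (θ : ℝ) :
    ‖cr lam N n θ‖ ≤ (∑ m ∈ Ioc n (n + N), |lam m|) / N := by
  unfold cr
  rw [norm_div, Complex.norm_natCast]
  apply div_le_div_of_nonneg_right _ (by positivity)
  refine (norm_sum_le _ _).trans (le_of_eq ?_)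
  apply sum_congr rfl
  intro m _
  rw [norm_mul, norm_ee, mul_one, Complex.norm_real, Real.norm_eq_abs]

lemma bddAbove_cr (lam : ℕ → ℝ) (N n : ℕ) :
    BddAbove (Set.range fun θ : ℝ => ‖cr lam N n θ‖) :=
  ⟨(∑ m ∈ Ioc n (n + N), |lam m|) / N, by rintro x ⟨θ, rfl⟩; exact norm_cr_le lam N n θ⟩

lemma le_M (lam : ℕ → ℝ) (N n : ℕ) (θ : ℝ) : ‖cr lam N n θ‖ ≤ M lam N n :=
  le_ciSup (bddAbove_cr lam N n) θ

lemma M_nonneg (lam : ℕ → ℝ) (N n : ℕ) : 0 ≤ M lam N n :=
  (norm_nonneg _).trans (le_M lam N n 0)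

lemma M_le_one (lam : ℕ → ℝ) (hl : ∀ n, |lam n| ≤ 1) (N n : ℕ) : M lam N n ≤ 1 :=
  ciSup_le fun θ => norm_cr_le_one lam hl N n θ

lemma M_le (lam : ℕ → ℝ) (N n : ℕ) {c : ℝ} (h : ∀ θ, ‖cr lam N n θ‖ ≤ c) : M lam N n ≤ c :=
  ciSup_le h

lemma continuous_cr (lam : ℕ → ℝ) (N n : ℕ) : Continuous (cr lam N n) := by
  unfold cr
  apply Continuous.div_const
  apply continuous_finsetSum
  intro m _
  apply Continuous.mul continuous_const
  exact continuous_ee.comp (by fun_prop)

/-- the correlation is periodic in the frequency -/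
lemma cr_sub_int (lam : ℕ → ℝ) (N n : ℕ) (θ : ℝ) (k : ℤ) :
    cr lam N n (θ - k) = cr lam N n θ := by
  unfold cr
  congr 1
  apply sum_congr rfl
  intro m _
  congr 1
  have h : -((θ - k) * (m : ℝ)) = -(θ * m) - ((-(k * m) : ℤ) : ℝ) := by push_cast; ring
  rw [h, ee_sub_int]

/-- there is a maximal frequency -/
lemma exists_max (lam : ℕ → ℝ) (N n : ℕ) :
    ∃ θ : ℝ, 0 ≤ θ ∧ θ ≤ 1 ∧ ‖cr lam N n θ‖ = M lam N n := by
  obtain ⟨θ, hθ, hmax⟩ := (isCompact_Icc (a := (0 : ℝ)) (b := 1)).exists_isMaxOn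
    ⟨0, by simp⟩ ((continuous_cr lam N n).norm.continuousOn)
  refine ⟨θ, hθ.1, hθ.2, le_antisymm (le_M lam N n θ) ?_⟩
  apply ciSup_le
  intro x
  have h1 : ‖cr lam N n x‖ = ‖cr lam N n (Int.fract x)‖ := by
    rw [Int.fract, cr_sub_int]
  rw [h1]
  exact hmax ⟨Int.fract_nonneg x, (Int.fract_lt_one x).le⟩

/-- the real form of the correlation -/
lemma cos_le_M (lam : ℕ → ℝ) (N n : ℕ) (θ φ : ℝ) :
    (∑ m ∈ Ioc n (n + N), lam m * Real.cos (2 * Real.pi * (θ * m + φ))) / N ≤ M lam N n := by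
  have h : (∑ m ∈ Ioc n (n + N), lam m * Real.cos (2 * Real.pi * (θ * m + φ))) / N =
      (ee (-φ) * cr lam N n θ).re := by
    unfold cr
    rw [← mul_div_assoc, mul_sum, ← Complex.ofReal_natCast, Complex.div_ofReal_re,
      Complex.re_sum]
    congr 1
    apply sum_congr rfl
    intro m _
    have h2 : ee (-φ) * ((lam m : ℂ) * ee (-(θ * m))) = (lam m : ℂ) * ee (-(θ * m + φ)) := by
      rw [mul_left_comm, ← ee_add]; congr 2; ring
    rw [h2, Complex.re_ofReal_mul, ee_re]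
    congr 1
    rw [← Real.cos_neg]
    congr 1; ring
  rw [h]
  calc (ee (-φ) * cr lam N n θ).re ≤ ‖ee (-φ) * cr lam N n θ‖ := Complex.re_le_norm _
    _ = ‖cr lam N n θ‖ := by rw [norm_mul, norm_ee, one_mul]
    _ ≤ _ := le_M lam N n θ

/-- every complex number is its norm times a phase -/
lemma exists_phase (z : ℂ) : ∃ φ : ℝ, z = ‖z‖ * ee φ := by
  refine ⟨z.arg / (2 * Real.pi), ?_⟩
  unfold ee
  rw [mul_div_cancel₀ _ (by positivity)]
  exact (Complex.norm_mul_exp_arg_mul_I z).symm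

/-- the maximal phase, in real form -/
lemma exists_max_cos (lam : ℕ → ℝ) (N n : ℕ) : ∃ θ φ : ℝ,
    (∑ m ∈ Ioc n (n + N), lam m * Real.cos (2 * Real.pi * (θ * m + φ))) / N = M lam N n ∧
      ‖cr lam N n θ‖ = M lam N n ∧ ee (-φ) * cr lam N n θ = M lam N n := by
  obtain ⟨θ, -, -, hθ⟩ := exists_max lam N n
  obtain ⟨φ, hφ⟩ := exists_phase (cr lam N n θ)
  have h0 : ee (-φ) * cr lam N n θ = M lam N n := by
    rw [hφ, mul_left_comm, ee_neg_mul_self, mul_one, hθ]
  refine ⟨θ, φ, ?_, hθ, h0⟩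
  have h : (∑ m ∈ Ioc n (n + N), lam m * Real.cos (2 * Real.pi * (θ * m + φ))) / N =
      (ee (-φ) * cr lam N n θ).re := by
    unfold cr
    rw [← mul_div_assoc, mul_sum, ← Complex.ofReal_natCast, Complex.div_ofReal_re,
      Complex.re_sum]
    congr 1
    apply sum_congr rfl
    intro m _
    have h2 : ee (-φ) * ((lam m : ℂ) * ee (-(θ * m))) = (lam m : ℂ) * ee (-(θ * m + φ)) := by
      rw [mul_left_comm, ← ee_add]; congr 2; ring
    rw [h2, Complex.re_ofReal_mul, ee_re]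
    congr 1
    rw [← Real.cos_neg]
    congr 1; ring
  rw [h, h0, Complex.ofReal_re]

/-- windows are cut into windows -/
lemma sum_Ioc_mul {E : Type} [AddCommMonoid E] (f : ℕ → E) (N R n : ℕ) :
    ∑ m ∈ Ioc n (n + N * R), f m = ∑ j ∈ range R, ∑ m ∈ Ioc (n + N * j) (n + N * j + N), f m := by
  induction R with
  | zero => simp
  | succ R ih =>
    have h1 : n + N * (R + 1) = n + N * R + N := by ring
    rw [sum_range_succ, ← ih, h1, ← sum_Ioc_consecutive f (Nat.le_add_right n (N * R))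
      (Nat.le_add_right (n + N * R) N)]

lemma cr_mul (lam : ℕ → ℝ) (N R n : ℕ) (hN : 0 < N) (hR : 0 < R) (θ : ℝ) :
    cr lam (N * R) n θ = (∑ j ∈ range R, cr lam N (n + N * j) θ) / R := by
  have h1 : (N : ℂ) ≠ 0 := by exact_mod_cast hN.ne'
  have h2 : (R : ℂ) ≠ 0 := by exact_mod_cast hR.ne'
  unfold cr
  rw [sum_Ioc_mul, ← sum_div]
  push_cast
  field_simp

/-- the largest correlation is at most the mean of those of the subwindows -/
lemma M_mul_le (lam : ℕ → ℝ) (N R n : ℕ) (hN : 0 < N) (hR : 0 < R) :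
    M lam (N * R) n ≤ (∑ j ∈ range R, M lam N (n + N * j)) / R := by
  apply M_le
  intro θ
  rw [cr_mul lam N R n hN hR θ, norm_div, Complex.norm_natCast]
  apply div_le_div_of_nonneg_right _ (by positivity)
  exact (norm_sum_le _ _).trans (sum_le_sum fun j _ => le_M lam N _ θ)

lemma lg_mono {X : ℕ} {f g : ℕ → ℝ} (h : ∀ n ∈ Icc 1 X, f n ≤ g n) : lg X f ≤ lg X g := by
  unfold lg
  exact sum_le_sum fun n hn => div_le_div_of_nonneg_right (h n hn) (by positivity)

lemma lg_nonneg {X : ℕ} {f : ℕ → ℝ} (h : ∀ n ∈ Icc 1 X, 0 ≤ f n) : 0 ≤ lg X f := by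
  unfold lg
  exact sum_nonneg fun n hn => div_nonneg (h n hn) (by positivity)

lemma lg_add (X : ℕ) (f g : ℕ → ℝ) : lg X (fun n => f n + g n) = lg X f + lg X g := by
  unfold lg
  rw [← sum_add_distrib]
  exact sum_congr rfl fun n _ => add_div _ _ _

lemma lg_sub (X : ℕ) (f g : ℕ → ℝ) : lg X (fun n => f n - g n) = lg X f - lg X g := by
  unfold lg
  rw [← sum_sub_distrib]
  exact sum_congr rfl fun n _ => sub_div _ _ _

lemma lg_mul (X : ℕ) (c : ℝ) (f : ℕ → ℝ) : lg X (fun n => c * f n) = c * lg X f := by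
  unfold lg
  rw [mul_sum]
  exact sum_congr rfl fun n _ => mul_div_assoc _ _ _

lemma lg_sum {ι : Type} (X : ℕ) (s : Finset ι) (f : ι → ℕ → ℝ) :
    lg X (fun n => ∑ i ∈ s, f i n) = ∑ i ∈ s, lg X (f i) := by
  unfold lg
  rw [sum_comm]
  exact sum_congr rfl fun n _ => by rw [sum_div]

lemma lg_const (X : ℕ) (c : ℝ) : lg X (fun _ => c) = c * lg X (fun _ => 1) := by
  rw [← lg_mul]; simp

/-- the harmonic sum -/
lemma lg_one_le (X : ℕ) : lg X (fun _ => 1) ≤ 1 + Real.log X := by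
  have := harmonic_le_one_add_log X
  unfold lg
  have h : ∑ n ∈ Icc 1 X, (1 : ℝ) / n = ((harmonic X : ℚ) : ℝ) := by
    rw [harmonic_eq_sum_Icc]
    push_cast
    exact sum_congr rfl fun n _ => one_div _
  rw [h]; exact this

lemma log_le_lg_one (X : ℕ) : Real.log (X + 1) ≤ lg X (fun _ => 1) := by
  have := log_add_one_le_harmonic X
  unfold lg
  have h : ∑ n ∈ Icc 1 X, (1 : ℝ) / n = ((harmonic X : ℚ) : ℝ) := by
    rw [harmonic_eq_sum_Icc]
    push_cast
    exact sum_congr rfl fun n _ => one_div _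
  rw [h]; exact_mod_cast this

lemma phi_nonneg (x : ℝ) : 0 ≤ phi x := by unfold phi; positivity

lemma phi_mono {x y : ℝ} (h : x ≤ y) : phi x ≤ phi y := by
  unfold phi
  have : max (x - 63 / 100) 0 ≤ max (y - 63 / 100) 0 := max_le_max (by linarith) le_rfl
  exact pow_le_pow_left₀ (le_max_right _ _) this 2

lemma phi_le_one {x : ℝ} (h : x ≤ 1) : phi x ≤ 1 := by
  unfold phi
  have h1 : max (x - 63 / 100) 0 ≤ 1 := max_le (by linarith) (by norm_num)
  have h2 : 0 ≤ max (x - 63 / 100) 0 := le_max_right _ _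
  nlinarith

/-- the harmonic sum -/
noncomputable def hs (j : ℕ) : ℝ := ∑ n ∈ Icc 1 j, (1 : ℝ) / n

lemma hs_le (j : ℕ) : hs j ≤ 1 + Real.log j := by
  have := lg_one_le j
  unfold lg at this
  exact this

lemma hs_nonneg (j : ℕ) : 0 ≤ hs j := sum_nonneg fun n _ => by positivity

lemma hs_mono {i j : ℕ} (h : i ≤ j) : hs i ≤ hs j := by
  unfold hs
  apply sum_le_sum_of_subset_of_nonneg
  · exact Icc_subset_Icc le_rfl h
  · intro n _ _; positivity

/-- the sum over a window of length `j` behind `X` is at most the harmonic sum -/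
lemma sum_window_le (X j : ℕ) : ∑ m ∈ Ioc X (X + j), (1 : ℝ) / m ≤ hs j := by
  unfold hs
  induction j with
  | zero => simp
  | succ j ih =>
    rw [← add_assoc, sum_Ioc_succ_top (by omega), sum_Icc_succ_top (by omega)]
    apply add_le_add ih
    apply one_div_le_one_div_of_le
    · exact_mod_cast Nat.succ_pos j
    · push_cast; have : (0 : ℝ) ≤ X := by positivity
      linarith

/-- shifts do not change the logarithmic sums much -/
lemma lg_shift (X j : ℕ) (f : ℕ → ℝ) {c : ℝ} (hf : ∀ n, |f n| ≤ c) :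
    |lg X (fun n => f (n + j)) - lg X f| ≤ 3 * c * hs j := by
  have hc : 0 ≤ c := (abs_nonneg _).trans (hf 0)
  have h1 : |lg X (fun n => f (n + j)) - ∑ n ∈ Icc 1 X, f (n + j) / ((n + j : ℕ) : ℝ)| ≤
      c * hs j := by
    unfold lg
    rw [← sum_sub_distrib]
    calc |∑ n ∈ Icc 1 X, (f (n + j) / (n : ℝ) - f (n + j) / ((n + j : ℕ) : ℝ))|
        ≤ ∑ n ∈ Icc 1 X, |f (n + j) / (n : ℝ) - f (n + j) / ((n + j : ℕ) : ℝ)| :=
          abs_sum_le_sum_abs _ _
      _ ≤ ∑ n ∈ Icc 1 X, c * (1 / (n : ℝ) - 1 / ((n + j : ℕ) : ℝ)) := by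
          apply sum_le_sum
          intro n hn
          have hn1 : (0 : ℝ) < n := by
            have := (mem_Icc.1 hn).1
            exact_mod_cast this
          have h2 : f (n + j) / (n : ℝ) - f (n + j) / ((n + j : ℕ) : ℝ) =
            f (n + j) * (1 / (n : ℝ) - 1 / ((n + j : ℕ) : ℝ)) := by ring
          have h3 : 0 ≤ 1 / (n : ℝ) - 1 / ((n + j : ℕ) : ℝ) := by
            rw [sub_nonneg]
            apply one_div_le_one_div_of_le hn1
            push_cast; linarith [(Nat.cast_nonneg j : (0 : ℝ) ≤ j)]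
          rw [h2, abs_mul, abs_of_nonneg h3]
          exact mul_le_mul_of_nonneg_right (hf _) h3
      _ = c * ∑ n ∈ Icc 1 X, (1 / (n : ℝ) - 1 / ((n + j : ℕ) : ℝ)) := by rw [mul_sum]
      _ ≤ c * hs j := by
          apply mul_le_mul_of_nonneg_left _ hc
          rw [sum_sub_distrib]
          have h4 : ∑ n ∈ Icc 1 X, 1 / ((n + j : ℕ) : ℝ) = ∑ m ∈ Ioc j (X + j), 1 / (m : ℝ) := by
            apply sum_nbij' (fun n => n + j) (fun m => m - j)
            · intro n hn; rw [mem_Icc] at hn; rw [mem_Ioc]; omega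
            · intro m hm; rw [mem_Ioc] at hm; rw [mem_Icc]; omega
            · intro n _; simp
            · intro m hm; rw [mem_Ioc] at hm; show m - j + j = m; omega
            · intro n _; rfl
          rw [h4]
          have h5 : hs j + ∑ m ∈ Ioc j (X + j), 1 / (m : ℝ) = hs (X + j) := by
            unfold hs
            rw [← Finset.sum_union]
            · congr 1; ext m; simp only [mem_union, mem_Icc, mem_Ioc]; omega
            · rw [Finset.disjoint_left]; intro m h1 h2; rw [mem_Icc] at h1; rw [mem_Ioc] at h2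
              omega
          have h6 : ∑ n ∈ Icc 1 X, 1 / (n : ℝ) = hs X := rfl
          rw [h6]
          have := hs_mono (Nat.le_add_right X j)
          linarith
  have h2 : |∑ n ∈ Icc 1 X, f (n + j) / ((n + j : ℕ) : ℝ) - lg X f| ≤ 2 * c * hs j := by
    have h4 : ∑ n ∈ Icc 1 X, f (n + j) / ((n + j : ℕ) : ℝ) =
        ∑ m ∈ Ioc j (X + j), f m / (m : ℝ) := by
      apply sum_nbij' (fun n => n + j) (fun m => m - j)
      · intro n hn; rw [mem_Icc] at hn; rw [mem_Ioc]; omega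
      · intro m hm; rw [mem_Ioc] at hm; rw [mem_Icc]; omega
      · intro n _; simp
      · intro m hm; rw [mem_Ioc] at hm; show m - j + j = m; omega
      · intro n _; rfl
    have h5 : ∑ m ∈ Icc 1 j, f m / (m : ℝ) + ∑ m ∈ Ioc j (X + j), f m / (m : ℝ) =
        ∑ m ∈ Icc 1 (X + j), f m / (m : ℝ) := by
      rw [← Finset.sum_union]
      · congr 1; ext m; simp only [mem_union, mem_Icc, mem_Ioc]; omega
      · rw [Finset.disjoint_left]; intro m h1 h2; rw [mem_Icc] at h1; rw [mem_Ioc] at h2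
        omega
    have h6 : ∑ m ∈ Icc 1 X, f m / (m : ℝ) + ∑ m ∈ Ioc X (X + j), f m / (m : ℝ) =
        ∑ m ∈ Icc 1 (X + j), f m / (m : ℝ) := by
      rw [← Finset.sum_union]
      · congr 1; ext m; simp only [mem_union, mem_Icc, mem_Ioc]; omega
      · rw [Finset.disjoint_left]; intro m h1 h2; rw [mem_Icc] at h1; rw [mem_Ioc] at h2
        omega
    have hterm : ∀ m : ℕ, |f m / (m : ℝ)| ≤ c * (1 / (m : ℝ)) := by
      intro m
      rw [abs_div, Nat.abs_cast, ← mul_one_div]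
      exact mul_le_mul_of_nonneg_right (hf m) (by positivity)
    have h7 : |∑ m ∈ Icc 1 j, f m / (m : ℝ)| ≤ c * hs j := by
      unfold hs
      rw [mul_sum]
      exact (abs_sum_le_sum_abs _ _).trans (sum_le_sum fun m _ => hterm m)
    have h8 : |∑ m ∈ Ioc X (X + j), f m / (m : ℝ)| ≤ c * hs j := by
      calc |∑ m ∈ Ioc X (X + j), f m / (m : ℝ)| ≤ ∑ m ∈ Ioc X (X + j), c * (1 / (m : ℝ)) :=
            (abs_sum_le_sum_abs _ _).trans (sum_le_sum fun m _ => hterm m)
        _ = c * ∑ m ∈ Ioc X (X + j), 1 / (m : ℝ) := by rw [mul_sum]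
        _ ≤ _ := mul_le_mul_of_nonneg_left (sum_window_le X j) hc
    have h9 : ∑ n ∈ Icc 1 X, f (n + j) / ((n + j : ℕ) : ℝ) - lg X f =
        ∑ m ∈ Ioc X (X + j), f m / (m : ℝ) - ∑ m ∈ Icc 1 j, f m / (m : ℝ) := by
      unfold lg
      rw [h4]
      linarith
    rw [h9]
    have := abs_sub (∑ m ∈ Ioc X (X + j), f m / (m : ℝ)) (∑ m ∈ Icc 1 j, f m / (m : ℝ))
    linarith
  have h3 := abs_add_le (lg X (fun n => f (n + j)) -
    ∑ n ∈ Icc 1 X, f (n + j) / ((n + j : ℕ) : ℝ))
    (∑ n ∈ Icc 1 X, f (n + j) / ((n + j : ℕ) : ℝ) - lg X f)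
  rw [sub_add_sub_cancel] at h3
  linarith

/-- the block of the integers with the quotient `m` -/
lemma sum_block (q m : ℕ) (hq : 1 ≤ q) (hm : 1 ≤ m) :
    |∑ n ∈ Ico (q * m) (q * m + q), (1 : ℝ) / n - 1 / m| ≤ 1 / m - 1 / ((m + 1 : ℕ) : ℝ) := by
  have hq0 : (0 : ℝ) < q := by exact_mod_cast hq
  have hm0 : (0 : ℝ) < m := by exact_mod_cast hm
  have hcard : (Ico (q * m) (q * m + q)).card = q := by simp
  have hup : ∑ n ∈ Ico (q * m) (q * m + q), (1 : ℝ) / n ≤ 1 / m := by
    calc ∑ n ∈ Ico (q * m) (q * m + q), (1 : ℝ) / n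
        ≤ ∑ _n ∈ Ico (q * m) (q * m + q), 1 / ((q : ℝ) * m) := by
          apply sum_le_sum
          intro n hn
          rw [mem_Ico] at hn
          apply one_div_le_one_div_of_le (by positivity)
          exact_mod_cast hn.1
      _ = 1 / m := by rw [sum_const, hcard, nsmul_eq_mul]; field_simp
  have hlo : 1 / ((m + 1 : ℕ) : ℝ) ≤ ∑ n ∈ Ico (q * m) (q * m + q), (1 : ℝ) / n := by
    calc 1 / ((m + 1 : ℕ) : ℝ) = ∑ _n ∈ Ico (q * m) (q * m + q), 1 / ((q : ℝ) * (m + 1)) := by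
          rw [sum_const, hcard, nsmul_eq_mul]; push_cast; field_simp
      _ ≤ _ := by
          apply sum_le_sum
          intro n hn
          rw [mem_Ico] at hn
          have h1 : 0 < q * m := Nat.mul_pos hq hm
          have h2 : (0 : ℝ) < n := by exact_mod_cast (by omega : 0 < n)
          apply one_div_le_one_div_of_le h2
          have h3 : (n : ℝ) ≤ ((q * m + q : ℕ) : ℝ) := by exact_mod_cast hn.2.le
          push_cast at h3
          linarith
  rw [abs_le]
  constructor <;> linarith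

/-- windows of bounded ratio -/
lemma sum_ratio (y q : ℕ) (hy : 1 ≤ y) (hq : 1 ≤ q) :
    ∑ m ∈ Icc y (q * y), (1 : ℝ) / m ≤ 1 + hs q := by
  have hy0 : (0 : ℝ) < y := by exact_mod_cast hy
  have key : ∀ q : ℕ, 1 ≤ q → ∑ m ∈ Icc y (q * y), (1 : ℝ) / m ≤ 1 + hs (q - 1) := by
    intro q hq
    induction q, hq using Nat.le_induction with
    | base =>
      rw [one_mul, Icc_self, sum_singleton]
      have h1 : (1 : ℝ) / y ≤ 1 := by
        rw [div_le_one hy0]; exact_mod_cast hy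
      have := hs_nonneg (1 - 1)
      linarith
    | succ q hq ih =>
      have hq0 : (0 : ℝ) < q := by exact_mod_cast hq
      have h1 : Icc y ((q + 1) * y) = Icc y (q * y) ∪ Ioc (q * y) (q * y + y) := by
        ext m; simp only [mem_union, mem_Icc, mem_Ioc]
        have h2 : (q + 1) * y = q * y + y := by ring
        have h3 : y ≤ q * y := Nat.le_mul_of_pos_left y hq
        rw [h2]; omega
      have h2 : Disjoint (Icc y (q * y)) (Ioc (q * y) (q * y + y)) := by
        rw [Finset.disjoint_left]; intro m h3 h4; rw [mem_Icc] at h3; rw [mem_Ioc] at h4; omega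
      rw [h1, sum_union h2]
      have h3 : ∑ m ∈ Ioc (q * y) (q * y + y), (1 : ℝ) / m ≤ 1 / q := by
        calc ∑ m ∈ Ioc (q * y) (q * y + y), (1 : ℝ) / m
            ≤ ∑ _m ∈ Ioc (q * y) (q * y + y), 1 / ((q : ℝ) * y) := by
              apply sum_le_sum
              intro m hm
              rw [mem_Ioc] at hm
              apply one_div_le_one_div_of_le (by positivity)
              exact_mod_cast hm.1.le
          _ = 1 / q := by
              rw [sum_const, Nat.card_Ioc, nsmul_eq_mul]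
              have : q * y + y - q * y = y := by omega
              rw [this]; field_simp
      have h4 : hs (q + 1 - 1) = hs (q - 1) + 1 / q := by
        unfold hs
        have : q + 1 - 1 = (q - 1) + 1 := by omega
        rw [this, sum_Icc_succ_top (by omega)]
        congr 2
        have : q - 1 + 1 = q := by omega
        exact_mod_cast this
      rw [h4]
      linarith
  have h1 := key q hq
  have h2 := hs_mono (Nat.sub_le q 1)
  linarith

/-- the logarithmic sums are invariant under dilations -/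
lemma lg_div (X q : ℕ) (hq : 1 ≤ q) (f : ℕ → ℝ) {c : ℝ} (hf : ∀ n, |f n| ≤ c) :
    |lg X (fun n => f (n / q)) - lg X f| ≤ c * (3 * hs q + 2) := by
  have hc : 0 ≤ c := (abs_nonneg _).trans (hf 0)
  set Y := X / q with hY
  have hXY : X < q * (Y + 1) := by
    rw [hY]; exact Nat.lt_mul_div_succ X hq
  have hYX : q * Y ≤ X := by rw [hY]; exact Nat.mul_div_le X q
  have hYX' : Y ≤ X := (Nat.le_mul_of_pos_left Y hq).trans hYX
  clear_value Y
  clear hY
  -- the complete sum
  have h1 : ∑ n ∈ Ico 1 (q * (Y + 1)), f (n / q) / (n : ℝ) =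
      ∑ n ∈ Ico 1 q, f 0 / (n : ℝ) +
        ∑ m ∈ Icc 1 Y, f m * ∑ n ∈ Ico (q * m) (q * m + q), (1 : ℝ) / n := by
    clear hXY hYX hYX'
    induction Y with
    | zero =>
      simp only [zero_add, mul_one]
      rw [show Icc 1 0 = (∅ : Finset ℕ) from rfl, sum_empty, add_zero]
      apply sum_congr rfl
      intro n hn
      rw [mem_Ico] at hn
      rw [Nat.div_eq_of_lt hn.2]
    | succ Y ih =>
      rw [sum_Icc_succ_top (by omega), ← add_assoc, ← ih]
      have h2 : Ico 1 (q * (Y + 1 + 1)) =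
          Ico 1 (q * (Y + 1)) ∪ Ico (q * (Y + 1)) (q * (Y + 1) + q) := by
        ext n; simp only [mem_union, mem_Ico]
        have h3 : q * (Y + 1 + 1) = q * (Y + 1) + q := by ring
        have h4 : 1 ≤ q * (Y + 1) := Nat.mul_pos hq (Nat.succ_pos Y)
        rw [h3]; omega
      have h3 : Disjoint (Ico 1 (q * (Y + 1))) (Ico (q * (Y + 1)) (q * (Y + 1) + q)) := by
        rw [Finset.disjoint_left]; intro m h3 h4; rw [mem_Ico] at h3 h4; omega
      rw [h2, sum_union h3]
      congr 1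
      rw [mul_sum]
      apply sum_congr rfl
      intro n hn
      rw [mem_Ico] at hn
      have h4 : n / q = Y + 1 := by
        rw [Nat.div_eq_iff (by omega)]
        constructor
        · have := hn.1; rw [mul_comm] at this; omega
        · have := hn.2; rw [mul_comm] at this; omega
      rw [h4, mul_one_div]
  have hterm : ∀ (a : ℕ → ℕ) (m : ℕ), |f (a m) / (m : ℝ)| ≤ c * (1 / (m : ℝ)) := by
    intro a m
    rw [abs_div, Nat.abs_cast, ← mul_one_div]
    exact mul_le_mul_of_nonneg_right (hf _) (by positivity)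
  -- the tail
  have h2 : |∑ n ∈ Ico 1 (q * (Y + 1)), f (n / q) / (n : ℝ) - lg X (fun n => f (n / q))| ≤
      c * hs q := by
    have h3 : Ico 1 (q * (Y + 1)) = Icc 1 X ∪ Ico (X + 1) (q * (Y + 1)) := by
      generalize q * (Y + 1) = Z at hXY
      ext n; simp only [mem_union, mem_Ico, mem_Icc]; omega
    have h4 : Disjoint (Icc 1 X) (Ico (X + 1) (q * (Y + 1))) := by
      rw [Finset.disjoint_left]; intro m h3 h4; rw [mem_Ico] at h4; rw [mem_Icc] at h3; omega
    unfold lg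
    rw [h3, sum_union h4, add_sub_cancel_left]
    calc |∑ n ∈ Ico (X + 1) (q * (Y + 1)), f (n / q) / (n : ℝ)|
        ≤ ∑ n ∈ Ico (X + 1) (q * (Y + 1)), c * (1 / (n : ℝ)) :=
          (abs_sum_le_sum_abs _ _).trans (sum_le_sum fun n _ => hterm (fun n => n / q) n)
      _ = c * ∑ n ∈ Ico (X + 1) (q * (Y + 1)), (1 : ℝ) / n := by rw [mul_sum]
      _ ≤ c * hs q := by
          apply mul_le_mul_of_nonneg_left _ hc
          refine le_trans ?_ (sum_window_le X q)
          apply sum_le_sum_of_subset_of_nonneg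
          · intro n hn
            rw [mem_Ico] at hn
            rw [mem_Ioc]
            have h5 : q * (Y + 1) = q * Y + q := by ring
            rw [h5] at hn
            generalize q * Y = Z at hn hYX
            omega
          · intro n _ _; positivity
  have h3 : |∑ n ∈ Ico 1 q, f 0 / (n : ℝ)| ≤ c * hs q := by
    calc |∑ n ∈ Ico 1 q, f 0 / (n : ℝ)| ≤ ∑ n ∈ Ico 1 q, c * (1 / (n : ℝ)) :=
          (abs_sum_le_sum_abs _ _).trans (sum_le_sum fun n _ => hterm (fun _ => 0) n)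
      _ = c * ∑ n ∈ Ico 1 q, (1 : ℝ) / n := by rw [mul_sum]
      _ ≤ c * hs q := by
          apply mul_le_mul_of_nonneg_left _ hc
          unfold hs
          apply sum_le_sum_of_subset_of_nonneg
          · intro n hn; rw [mem_Ico] at hn; rw [mem_Icc]; omega
          · intro n _ _; positivity
  have h4 : |∑ m ∈ Icc 1 Y, f m * ∑ n ∈ Ico (q * m) (q * m + q), (1 : ℝ) / n -
      ∑ m ∈ Icc 1 Y, f m / (m : ℝ)| ≤ c * 1 := by
    rw [← sum_sub_distrib]
    calc |∑ m ∈ Icc 1 Y, (f m * ∑ n ∈ Ico (q * m) (q * m + q), (1 : ℝ) / n - f m / (m : ℝ))|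
        ≤ ∑ m ∈ Icc 1 Y, c * (1 / (m : ℝ) - 1 / ((m + 1 : ℕ) : ℝ)) := by
          refine (abs_sum_le_sum_abs _ _).trans (sum_le_sum fun m hm => ?_)
          have h5 : f m * ∑ n ∈ Ico (q * m) (q * m + q), (1 : ℝ) / n - f m / (m : ℝ) =
            f m * (∑ n ∈ Ico (q * m) (q * m + q), (1 : ℝ) / n - 1 / m) := by ring
          rw [h5, abs_mul]
          exact mul_le_mul (hf m) (sum_block q m hq (mem_Icc.1 hm).1) (abs_nonneg _) hc
      _ = c * ∑ m ∈ Icc 1 Y, (1 / (m : ℝ) - 1 / ((m + 1 : ℕ) : ℝ)) := by rw [mul_sum]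
      _ ≤ c * 1 := by
          apply mul_le_mul_of_nonneg_left _ hc
          have h6 : ∀ Y : ℕ, ∑ m ∈ Icc 1 Y, (1 / (m : ℝ) - 1 / ((m + 1 : ℕ) : ℝ)) =
              1 - 1 / ((Y + 1 : ℕ) : ℝ) := by
            intro Y
            induction Y with
            | zero => simp
            | succ Y ih => rw [sum_Icc_succ_top (by omega), ih]; ring
          rw [h6]
          have : (0 : ℝ) ≤ 1 / ((Y + 1 : ℕ) : ℝ) := by positivity
          linarith
  have h5 : |∑ m ∈ Icc 1 Y, f m / (m : ℝ) - lg X f| ≤ c * (1 + hs q) := by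
    have h6 : Icc 1 X = Icc 1 Y ∪ Ioc Y X := by
      ext n; simp only [mem_union, mem_Ioc, mem_Icc]; omega
    have h7 : Disjoint (Icc 1 Y) (Ioc Y X) := by
      rw [Finset.disjoint_left]; intro m h3 h4; rw [mem_Ioc] at h4; rw [mem_Icc] at h3; omega
    unfold lg
    rw [h6, sum_union h7]
    have h8 : ∑ m ∈ Icc 1 Y, f m / (m : ℝ) - (∑ m ∈ Icc 1 Y, f m / (m : ℝ) +
        ∑ m ∈ Ioc Y X, f m / (m : ℝ)) = -∑ m ∈ Ioc Y X, f m / (m : ℝ) := by ring
    rw [h8, abs_neg]
    calc |∑ m ∈ Ioc Y X, f m / (m : ℝ)| ≤ ∑ m ∈ Ioc Y X, c * (1 / (m : ℝ)) :=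
          (abs_sum_le_sum_abs _ _).trans (sum_le_sum fun m _ => hterm id m)
      _ = c * ∑ m ∈ Ioc Y X, (1 : ℝ) / m := by rw [mul_sum]
      _ ≤ c * (1 + hs q) := by
          apply mul_le_mul_of_nonneg_left _ hc
          refine le_trans ?_ (sum_ratio (Y + 1) q (Nat.succ_pos Y) hq)
          apply sum_le_sum_of_subset_of_nonneg
          · intro n hn
            rw [mem_Ioc] at hn
            rw [mem_Icc]
            omega
          · intro n _ _; positivity
  rw [h1] at h2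
  rw [abs_le] at h2 h3 h4 h5 ⊢
  constructor <;> linarith [h2.1, h2.2, h3.1, h3.2, h4.1, h4.2, h5.1, h5.2]

end Pool.Agent.H93.EB
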