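import Pool.Agent.H93.EB.Defs

/-!
# The energy argument for structure on windows (MP_c59857_nt): statements of the sections
-/

set_option autoImplicit false

namespace Pool.Agent.H93.EB

open Finset Pool.Agent.H6.N4D

/-- the sum of the squares of the tests over all levels, windows and primes -/
noncomputable def besSum (lam : ℕ → ℝ) (X K : ℕ) (m : ℕ → ℕ) (α : ℕ → ℕ → ℕ → ℝ)
    (g : ℕ → ℕ → ℕ → ℕ → ℂ) : ℝ :=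
  ∑ i ∈ range K, lg X (fun n => ∑ q ∈ QQ (m i),
    1 / (q : ℝ) * zz lam q (2 ^ m i) n (α i n q) (g i n q) ^ 2)

/-- BES. The inequality of Bessel for many levels: (A) frequencies which do not depend on the
prime; (B) for frequencies `β` which depend on the prime, with suitable lifts `α`. -/
def T_BES : Prop := ∃ (B : ℕ) (C : ℝ), 1 ≤ B ∧ 0 < C ∧ ∀ (R : ℕ) (ε : ℝ), 0 < ε → ∃ s₀ : ℕ,
  ∀ (s X K k₁ : ℕ) (lam : ℕ → ℝ) (e : ℝ) (m : ℕ → ℕ),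
    s₀ ≤ s → 3 ≤ X → (∀ n, |lam n| ≤ 1) → Base lam R (2 ^ s) e X → K ≤ 2 ^ (s / B) →
    B * s ≤ m 0 → (∀ i, i + 1 < K → B * m i ≤ m (i + 1)) → (∀ i < K, m i ≤ k₁) →
    (∀ (α : ℕ → ℕ → ℝ) (g : ℕ → ℕ → ℕ → ℕ → ℂ),
      (∀ i < K, ∀ n, ∀ q ∈ QQ (m i), BV (2 ^ m i) n (g i n q)) →
      besSum lam X K m (fun i n _ => α i n) g ≤
        (C * e + (1 / 2) ^ (s / B)) * Real.log X + C * K * (k₁ + 1)) ∧
    (∀ β : ℕ → ℕ → ℕ → ℝ, ∃ α : ℕ → ℕ → ℕ → ℝ,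
      (∀ i < K, ∀ n, ∀ q ∈ QQ (m i), ∃ b : ℤ,
        nd (α i n q - β i n q - (b : ℝ) / q) ≤ ε / 2 ^ m i) ∧
      besSum lam X K m α (fun _ _ _ _ => 1) ≤
        (C * e + (1 / 2) ^ (s / B)) * Real.log X + C * K * (k₁ + 1))

/-- EN. The energy is almost constant on the whole range of scales. -/
def T_EN : Prop := ∃ B : ℕ, 1 ≤ B ∧ ∀ ε : ℝ, 0 < ε → ∃ e : ℝ, 0 < e ∧ ∀ R : ℕ,
  ∃ s₀ X₀ : ℕ, ∀ (s X : ℕ) (lam : ℕ → ℝ), s₀ ≤ s → X₀ ≤ X → Lio lam →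
    Real.log (Real.log X) ≤ 2 ^ (s / B) → Base lam R (2 ^ s) e X →
    ∀ k₀ k : ℕ, B * s ≤ k₀ → k₀ ≤ k → (k : ℝ) ≤ 2 * Real.log X ^ (24 / 25 : ℝ) →
      t lam X k₀ - ε ≤ t lam X k

/-- BAS. From the structure on windows to sums of exponentials. -/
def T_BAS : Prop := ∀ e : ℝ, 0 < e → ∃ (δ : ℝ) (R Q : ℕ), 0 < δ ∧ ∀ η : ℝ, 0 < η →
  ∃ (e₁ : ℝ) (s₀ : ℕ), 0 < e₁ ∧
  ∀ (s h X : ℕ) (lam : ℕ → ℝ), s₀ ≤ s → s + s₀ ≤ h → (h : ℝ) ≤ e₁ * Real.log X →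
    (∀ n, lam n = 1 ∨ lam n = -1) → Str lam Q η e₁ (2 ^ h) X δ → Base lam R (2 ^ s) e X

/-- MON. The mean of the largest correlation does not increase with the length. -/
def T_MON : Prop := ∃ C : ℝ, 0 < C ∧ ∀ (X N H : ℕ) (lam : ℕ → ℝ), 3 ≤ X → (∀ n, |lam n| ≤ 1) →
  1 ≤ N → N ≤ H → lg X (fun n => M lam H n) ≤
    lg X (fun n => M lam N n) + C * (N / H * Real.log X + Real.log H + 1)

/-- MRQ. The theorem of Matomaki and Radziwill for windows of bounded length, with periodic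
twists. -/
def T_MRQ : Prop := ∀ (Q : ℕ) (ε : ℝ), 0 < ε → ∃ H₀ : ℕ, ∀ H, H₀ ≤ H → ∃ X₀ : ℕ,
  ∀ (X : ℕ) (lam : ℕ → ℝ), X₀ ≤ X → Lio lam → ∀ q a : ℕ, 1 ≤ q → q ≤ Q → a ≤ q →
    lg X (fun n => ‖cr lam H n ((a : ℝ) / q)‖ ^ 2) ≤ ε * Real.log X

/-- UPB. The correlation is rarely larger than that of a generic wave. -/
def T_UPB : Prop := ∀ ε : ℝ, 0 < ε → ∃ H₀ X₀ : ℕ, ∀ (X H : ℕ) (lam : ℕ → ℝ), X₀ ≤ X →
  Lio lam → H₀ ≤ H → Real.log H ≤ 2 * Real.log X ^ (24 / 25 : ℝ) →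
    lg X (fun n => max (M lam H n - (2 / Real.pi + ε)) 0) ≤ ε * Real.log X

/-- NEG. If the mean of the largest correlation is near `2 / π`, the energy is large. -/
def T_NEG : Prop := ∀ ε : ℝ, 0 < ε → ∃ (c : ℝ) (k₀ X₀ : ℕ), 0 < c ∧
  ∀ (X k : ℕ) (lam : ℕ → ℝ), X₀ ≤ X → Lio lam → k₀ ≤ k →
    (k : ℝ) ≤ 2 * Real.log X ^ (24 / 25 : ℝ) →
    (2 / Real.pi - c) * Real.log X ≤ lg X (fun n => M lam (2 ^ k) n) →
      phi (2 / Real.pi) - ε ≤ t lam X k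

/-- TOP. If the energy is large, there is structure. -/
def T_TOP : Prop := ∀ (δ : ℝ) (Q : ℕ), 0 < δ → ∃ η : ℝ, 0 < η ∧ ∀ e : ℝ, 0 < e →
  ∃ (ε : ℝ) (k₀ X₀ : ℕ), 0 < ε ∧ ∀ (X k : ℕ) (lam : ℕ → ℝ), X₀ ≤ X → Lio lam → k₀ ≤ k →
    (k : ℝ) ≤ 2 * Real.log X ^ (24 / 25 : ℝ) → phi (2 / Real.pi) - ε ≤ t lam X k →
      Str lam Q η e (2 ^ k) X δ

/-- FIN1. Local Fourier uniformity with a constant gap on windows of length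
`(log log X) ^ C`. -/
def T_FIN1 : Prop := ∃ (c : ℝ) (C X₀ : ℕ), 0 < c ∧ ∀ (X H : ℕ) (lam : ℕ → ℝ), X₀ ≤ X →
  Lio lam → Real.log (Real.log X) ^ C ≤ H → Real.log H ≤ c * Real.log X →
    lg X (fun n => M lam H n) ≤ (2 / Real.pi - c) * Real.log X

/-- STG. The first stage: from windows of bounded length to windows whose length is larger than
every power of `log log X`. -/
def T_STG : Prop := ∀ (B : ℕ) (ε : ℝ), 1 ≤ B → 0 < ε → ∃ (c₁ : ℝ) (H₀ : ℕ), 0 < c₁ ∧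
  ∀ H, H₀ ≤ H → ∃ X₀ : ℕ, ∀ (X : ℕ) (lam : ℕ → ℝ), X₀ ≤ X → Lio lam →
    (2 / Real.pi - c₁) * Real.log X ≤ lg X (fun n => M lam H n) →
    ∃ k : ℕ, Real.log (Real.log X) ≤ 2 ^ (k / B) ∧ (2 : ℝ) ^ k ≤ Real.log X ∧
      phi (2 / Real.pi) - ε ≤ t lam X k

/-- FIN2. Local Fourier uniformity with a constant gap on windows of bounded length. -/
def T_FIN2 : Prop := ∃ (c : ℝ) (H₀ : ℕ), 0 < c ∧ ∀ H, H₀ ≤ H → ∃ X₀ : ℕ, ∀ (X : ℕ)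
  (lam : ℕ → ℝ), X₀ ≤ X → Lio lam →
    lg X (fun n => M lam H n) ≤ (2 / Real.pi - c) * Real.log X

end Pool.Agent.H93.EB
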