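import Pool.Agent.H6.N4D.Defs

/-!
# The energy argument for structure on windows (MP_c59857_nt): definitions

Windows are the sets `Ioc n (n + N)`, of length `N`; averages over `n` are logarithmic.
-/

set_option autoImplicit false

namespace Pool.Agent.H93.EB

open Finset Pool.Agent.H6.N4D

/-- the correlation of `lam` with the frequency `θ` on the window `(n, n + N]` -/
noncomputable def cr (lam : ℕ → ℝ) (N n : ℕ) (θ : ℝ) : ℂ :=
  (∑ m ∈ Ioc n (n + N), (lam m : ℂ) * ee (-(θ * m))) / N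

/-- the largest correlation on the window -/
noncomputable def M (lam : ℕ → ℝ) (N n : ℕ) : ℝ := ⨆ θ : ℝ, ‖cr lam N n θ‖

/-- the correlation on the multiples of `q` -/
noncomputable def crq (lam : ℕ → ℝ) (q N n : ℕ) (θ : ℝ) : ℂ :=
  (∑ m ∈ (Ioc n (n + N)).filter (fun m => q ∣ m), (lam m : ℂ) * ee (-(θ * m))) * q / N

/-- the largest correlation on the multiples of `q` -/
noncomputable def Mq (lam : ℕ → ℝ) (q N n : ℕ) : ℝ := ⨆ θ : ℝ, ‖crq lam q N n θ‖

/-- the convex function of the energy -/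
noncomputable def phi (x : ℝ) : ℝ := max (x - 63 / 100) 0 ^ 2

/-- logarithmic sums -/
noncomputable def lg (X : ℕ) (f : ℕ → ℝ) : ℝ := ∑ n ∈ Icc 1 X, f n / n

open Classical in
/-- the indicator function of a property -/
noncomputable def ind (p : Prop) : ℝ := if p then 1 else 0

/-- the mean energy at the scale `2 ^ k` -/
noncomputable def t (lam : ℕ → ℝ) (X k : ℕ) : ℝ :=
  lg X (fun n => phi (M lam (2 ^ k) n)) / Real.log X

/-- the mean square of the largest correlation at the scale `2 ^ k` -/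
noncomputable def t2 (lam : ℕ → ℝ) (X k : ℕ) : ℝ :=
  lg X (fun n => M lam (2 ^ k) n ^ 2) / Real.log X

/-- the prime numbers of the level `m` -/
def QQ (m : ℕ) : Finset ℕ := (Ioc (2 ^ (m / 400)) (2 ^ (m / 200))).filter Nat.Prime

/-- the function `q 1_(q | n) - 1` -/
noncomputable def D (q n : ℕ) : ℝ := (if q ∣ n then (q : ℝ) else 0) - 1

/-- the test of the window `(n, n + N]` with the prime `q`, the frequency `α`, the weight `g` -/
noncomputable def zz (lam : ℕ → ℝ) (q N n : ℕ) (α : ℝ) (g : ℕ → ℂ) : ℝ :=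
  ‖(∑ m ∈ Ioc n (n + N), (lam m : ℂ) * (D q m : ℂ) * ee (-(α * m)) * g m) / N‖

/-- weights of bounded variation on the window `(n, n + N]` -/
structure BV (N n : ℕ) (g : ℕ → ℂ) : Prop where
  bd : ∀ m ∈ Ioc n (n + N), ‖g m‖ ≤ 1
  tv : ∑ m ∈ Ioo n (n + N), ‖g (m + 1) - g m‖ ≤ 10

/-- on most windows of length `S`, `lam` is a sum of `R` exponentials, up to `e` in mean
square -/
def Base (lam : ℕ → ℝ) (R S : ℕ) (e : ℝ) (X : ℕ) : Prop :=
  ∃ (b : ℕ → ℕ → ℂ) (β : ℕ → ℕ → ℝ), (∀ n r, ‖b n r‖ ≤ 1) ∧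
    lg X (fun n => (∑ m ∈ Ioc n (n + S),
      ‖(lam m : ℂ) - ∑ r ∈ range R, b n r * ee (β n r * m)‖ ^ 2) / S) ≤ e * Real.log X

/-- the share of the windows of length `H` without structure is at most `e` -/
def Str (lam : ℕ → ℝ) (Q : ℕ) (η e₁ : ℝ) (H X : ℕ) (e : ℝ) : Prop :=
  lg X (fun n => ind (¬ GW lam Q η e₁ H n)) ≤ e * Real.log X

end Pool.Agent.H93.EB
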